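import Pool.Agent.V5helper50.SP.Stm
import Pool.Agent.V5helper70.MT.AE

/-! Project SP, job IT: induction on scales. -/

set_option autoImplicit false

namespace Pool.Agent.V5helper58.SP

open Finset MeasureTheory
open Pool.Agent.V5helper51.MT (e g a G cube φ)
open Pool.Agent.V5helper70.MT (meas_E meas_cube cube_fin)
open Pool.Agent.V5helper50.SP

instance fin_cube (k A : ℕ) : IsFiniteMeasure (volume.restrict (cube k A)) :=
  ⟨by rw [Measure.restrict_apply_univ]; exact lt_top_iff_ne_top.2 (cube_fin k A)⟩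

lemma cnt_eq (k q : ℕ) (α : Fin (k - 1) → ℝ) (I : Fin k → Finset ℕ) : (cnt (a k q α) I : ℝ) =
    ∑ x ∈ Fintype.piFinset I, ∑ y ∈ Fintype.piFinset I,
      {β : Fin (k - 1) → ℝ | ∑ i, a k q β (x i) = ∑ i, a k q β (y i)}.indicator (fun _ => (1 : ℝ)) α := by
  classical
  unfold cnt
  rw [card_filter, ← sum_product']
  push_cast
  apply sum_congr rfl
  intro p _
  by_cases h : ∑ i, a k q α (p.1 i) = ∑ i, a k q α (p.2 i)
  · rw [if_pos h]
    exact (Set.indicator_of_mem (show α ∈ {β : Fin (k - 1) → ℝ | ∑ i, a k q β (p.1 i) =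
      ∑ i, a k q β (p.2 i)} from h) (fun _ => (1 : ℝ))).symm
  · rw [if_neg h]
    exact (Set.indicator_of_notMem (show α ∉ {β : Fin (k - 1) → ℝ | ∑ i, a k q β (p.1 i) =
      ∑ i, a k q β (p.2 i)} from h) (fun _ => (1 : ℝ))).symm

lemma int_ind (k q A : ℕ) (x y : Fin k → ℕ) : Integrable (fun α : Fin (k - 1) → ℝ =>
    {β : Fin (k - 1) → ℝ | ∑ i, a k q β (x i) = ∑ i, a k q β (y i)}.indicator (fun _ => (1 : ℝ)) α)
    (volume.restrict (cube k A)) :=
  (integrable_const (1 : ℝ)).indicator (meas_E k q x y)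

lemma int_cnt (k q A : ℕ) (I : Fin k → Finset ℕ) :
    Integrable (fun α : Fin (k - 1) → ℝ => (cnt (a k q α) I : ℝ)) (volume.restrict (cube k A)) := by
  simp only [cnt_eq]
  exact integrable_finsetSum _ fun x _ => integrable_finsetSum _ fun y _ => int_ind k q A x y

lemma W_eq (k q A : ℕ) (I : Fin k → Finset ℕ) :
    W k q A I = ∫ α, (cnt (a k q α) I : ℝ) ∂(volume.restrict (cube k A)) := by
  simp only [cnt_eq]
  rw [integral_finsetSum _ fun x _ => integrable_finsetSum _ fun y _ => int_ind k q A x y]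
  unfold W
  apply sum_congr rfl
  intro x _
  rw [integral_finsetSum _ fun y _ => int_ind k q A x y]
  apply sum_congr rfl
  intro y _
  rw [integral_indicator_const _ (meas_E k q x y), smul_eq_mul, mul_one, measureReal_def, measureReal_def,
    Measure.restrict_apply (meas_E k q x y)]
  congr 2
  ext α
  exact and_comm

lemma W_mono (k q A : ℕ) {I J : Fin k → Finset ℕ} (h : ∀ i, I i ⊆ J i) : W k q A I ≤ W k q A J := by
  have hs : Fintype.piFinset I ⊆ Fintype.piFinset J := Fintype.piFinset_subset _ _ h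
  unfold W
  refine (sum_le_sum fun x _ => sum_le_sum_of_subset_of_nonneg hs fun y _ _ => measureReal_nonneg).trans ?_
  exact sum_le_sum_of_subset_of_nonneg hs fun x _ _ => sum_nonneg fun y _ => measureReal_nonneg

lemma W_one (k q A u : ℕ) : W k q A (fun _ => Ico u (u + 1)) ≤ volume.real (cube k A) := by
  unfold W
  have hc : (Fintype.piFinset (fun _ : Fin k => Ico u (u + 1))).card = 1 := by
    rw [Fintype.card_piFinset]
    simp
  calc _ ≤ ∑ x ∈ Fintype.piFinset (fun _ : Fin k => Ico u (u + 1)),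
        ∑ y ∈ Fintype.piFinset (fun _ : Fin k => Ico u (u + 1)), volume.real (cube k A) :=
        sum_le_sum fun x _ => sum_le_sum fun y _ =>
          measureReal_mono (fun α hα => hα.1) (cube_fin k A)
    _ = _ := by rw [sum_const, sum_const, hc, one_smul, one_smul]

lemma BGint (hBG : S_BG) (k q A M : ℕ) (hk : 1 ≤ k) (hM : 1 ≤ M) (u L : ℕ) :
    W k q A (fun _ => Ico u (u + M * L)) ≤
    (2 * (M : ℝ)) ^ (2 * k) * ∑ i ∈ (univ : Finset (Fin k → Fin M)).filter
      (fun i => ∀ l l' : Fin k, l < l' → (i l : ℕ) + 2 ≤ i l'),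
        W k q A (fun l => Ico (u + (i l : ℕ) * L) (u + ((i l : ℕ) + 1) * L)) +
    (6 * (k : ℝ)) ^ (2 * k) * ∑ i ∈ range M, W k q A (fun _ => Ico (u + i * L) (u + (i + 1) * L)) := by
  simp only [W_eq]
  rw [← integral_finsetSum _ fun i _ => int_cnt k q A _, ← integral_finsetSum _ fun i _ => int_cnt k q A _,
    ← integral_const_mul, ← integral_const_mul, ← integral_add]
  · refine integral_mono (int_cnt k q A _) ?_ fun α => hBG k M hk hM (a k q α) u L
    exact ((integrable_finsetSum _ fun i _ => int_cnt k q A _).const_mul _).add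
      ((integrable_finsetSum _ fun i _ => int_cnt k q A _).const_mul _)
  · exact (integrable_finsetSum _ fun i _ => int_cnt k q A _).const_mul _
  · exact (integrable_finsetSum _ fun i _ => int_cnt k q A _).const_mul _

lemma scales (hBG : S_BG) (k q A M K : ℕ) (hk : 2 ≤ k) (hM : 1 ≤ M) (C : ℝ) (hC : 0 < C)
    (hMV : ∀ X ℓ : ℕ, 1 ≤ ℓ → ℓ ≤ X → ∀ b : Fin k → ℕ, (∀ i j : Fin k, i < j → b i + 2 * ℓ ≤ b j) →
      (∀ i, X ≤ b i ∧ b i + ℓ ≤ K * X) →
      W k q A (fun i => Ico (b i) (b i + ℓ)) ≤ C * ℓ * (X : ℝ) ^ (k - 1) * (1 + Real.log X))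
    (X : ℕ) (hX : 1 ≤ X) (D V Q Y : ℝ) (hD : D = (2 * (M : ℝ)) ^ (2 * k) * (M : ℝ) ^ k * C)
    (hV : V = volume.real (cube k A)) (hQ : Q = (6 * (k : ℝ)) ^ (2 * k))
    (hY : Y = (X : ℝ) ^ (k - 1) * (1 + Real.log X)) :
    ∀ t : ℕ, (∀ s < t, M ^ s ≤ X) → ∀ u : ℕ, X ≤ u → u + M ^ t ≤ K * X →
      W k q A (fun _ => Ico u (u + M ^ t)) ≤ (D + V) * (t + 1) * (Q * M) ^ t * Y := by
  have hX1 : (1 : ℝ) ≤ X := by exact_mod_cast hX
  have hM1 : (1 : ℝ) ≤ M := by exact_mod_cast hM
  have hk1 : (1 : ℝ) ≤ k := by exact_mod_cast (by omega : 1 ≤ k)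
  have hlog : 0 ≤ Real.log X := Real.log_nonneg hX1
  have hY1 : 1 ≤ Y := by
    rw [hY]
    have h1 : (1 : ℝ) ≤ (X : ℝ) ^ (k - 1) := one_le_pow₀ hX1
    nlinarith
  have hV0 : 0 ≤ V := by rw [hV]; exact measureReal_nonneg
  have hD0 : 0 ≤ D := by rw [hD]; positivity
  have hQ1 : 1 ≤ Q := by
    rw [hQ]
    exact one_le_pow₀ (by linarith)
  intro t
  induction t with
  | zero =>
    intro _ u _ _
    rw [pow_zero, pow_zero]
    refine (W_one k q A u).trans ?_
    rw [← hV]
    push_cast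
    nlinarith
  | succ t ih =>
    intro hs u hu hu'
    have hMt : M ^ t ≤ X := hs t (Nat.lt_succ_self t)
    have h1 := BGint hBG k q A M (by omega) hM u (M ^ t)
    have hpow : M * M ^ t = M ^ (t + 1) := by rw [pow_succ, mul_comm]
    rw [hpow] at h1
    refine h1.trans ?_
    -- the first part
    have h2 : ∑ i ∈ (univ : Finset (Fin k → Fin M)).filter
        (fun i => ∀ l l' : Fin k, l < l' → (i l : ℕ) + 2 ≤ i l'),
        W k q A (fun l => Ico (u + (i l : ℕ) * M ^ t) (u + ((i l : ℕ) + 1) * M ^ t)) ≤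
        (M : ℝ) ^ k * (C * ((M ^ t : ℕ) : ℝ) * Y) := by
      calc _ ≤ ∑ i ∈ (univ : Finset (Fin k → Fin M)).filter
            (fun i => ∀ l l' : Fin k, l < l' → (i l : ℕ) + 2 ≤ i l'), (C * ((M ^ t : ℕ) : ℝ) * Y) := by
            apply sum_le_sum
            intro i hi
            rw [mem_filter] at hi
            have h3 := hMV X (M ^ t) (Nat.one_le_pow _ _ hM) hMt (fun l => u + (i l : ℕ) * M ^ t)
              (by
                intro l l' hl
                have h4 := hi.2 l l' hl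
                have h5 : ((i l : ℕ) + 2) * M ^ t ≤ (i l' : ℕ) * M ^ t := Nat.mul_le_mul_right _ h4
                show u + (i l : ℕ) * M ^ t + 2 * M ^ t ≤ u + (i l' : ℕ) * M ^ t
                calc u + (i l : ℕ) * M ^ t + 2 * M ^ t = u + ((i l : ℕ) + 2) * M ^ t := by ring
                  _ ≤ _ := by omega)
              (by
                intro l
                have h4 : (i l : ℕ) + 1 ≤ M := (i l).2
                have h5 : ((i l : ℕ) + 1) * M ^ t ≤ M * M ^ t := Nat.mul_le_mul_right _ h4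
                rw [hpow] at h5
                constructor
                · show X ≤ u + (i l : ℕ) * M ^ t
                  omega
                · show u + (i l : ℕ) * M ^ t + M ^ t ≤ K * X
                  calc u + (i l : ℕ) * M ^ t + M ^ t = u + ((i l : ℕ) + 1) * M ^ t := by ring
                    _ ≤ u + M ^ (t + 1) := by omega
                    _ ≤ _ := hu')
            have h6 : (fun l => Ico (u + (i l : ℕ) * M ^ t) (u + ((i l : ℕ) + 1) * M ^ t)) =
                (fun l => Ico (u + (i l : ℕ) * M ^ t) (u + (i l : ℕ) * M ^ t + M ^ t)) := by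
              funext l
              congr 1
              ring
            rw [h6]
            refine h3.trans (le_of_eq ?_)
            rw [hY]
            ring
        _ = ((((univ : Finset (Fin k → Fin M)).filter
            (fun i => ∀ l l' : Fin k, l < l' → (i l : ℕ) + 2 ≤ i l')).card : ℕ) : ℝ) *
              (C * ((M ^ t : ℕ) : ℝ) * Y) := by rw [sum_const, nsmul_eq_mul]
        _ ≤ _ := by
            apply mul_le_mul_of_nonneg_right _ (by positivity)
            have h7 : ((univ : Finset (Fin k → Fin M)).filter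
              (fun i => ∀ l l' : Fin k, l < l' → (i l : ℕ) + 2 ≤ i l')).card ≤ M ^ k := by
              refine (card_filter_le _ _).trans ?_
              rw [card_univ, Fintype.card_fun, Fintype.card_fin, Fintype.card_fin]
            exact_mod_cast h7
    -- the second part
    have h3 : ∑ i ∈ range M, W k q A (fun _ => Ico (u + i * M ^ t) (u + (i + 1) * M ^ t)) ≤
        (M : ℝ) * ((D + V) * (t + 1) * (Q * M) ^ t * Y) := by
      calc _ ≤ ∑ i ∈ range M, ((D + V) * (t + 1) * (Q * M) ^ t * Y) := by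
            apply sum_le_sum
            intro i hi
            rw [mem_range] at hi
            have h5 : (i + 1) * M ^ t ≤ M * M ^ t := Nat.mul_le_mul_right _ hi
            rw [hpow] at h5
            have h6 : (i + 1) * M ^ t = i * M ^ t + M ^ t := by ring
            have h7 := ih (fun s hs' => hs s (by omega)) (u + i * M ^ t) (by omega) (by
              rw [h6] at h5
              omega)
            have h8 : u + (i + 1) * M ^ t = u + i * M ^ t + M ^ t := by rw [h6]; ring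
            rw [h8]
            exact h7
        _ = _ := by rw [sum_const, card_range, nsmul_eq_mul]
    have h4 : (2 * (M : ℝ)) ^ (2 * k) * ((M : ℝ) ^ k * (C * ((M ^ t : ℕ) : ℝ) * Y)) =
        D * (M : ℝ) ^ t * Y := by
      rw [hD]
      push_cast
      ring
    have hMt0 : (0 : ℝ) ≤ (M : ℝ) ^ t := by positivity
    have h5 : (M : ℝ) ^ t ≤ (Q * M) ^ (t + 1) := by
      calc (M : ℝ) ^ t ≤ (Q * M) ^ t := pow_le_pow_left₀ (by linarith) (by nlinarith) t
        _ ≤ _ := pow_le_pow_right₀ (by nlinarith) (Nat.le_succ t)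
    calc _ ≤ (2 * (M : ℝ)) ^ (2 * k) * ((M : ℝ) ^ k * (C * ((M ^ t : ℕ) : ℝ) * Y)) +
          (6 * (k : ℝ)) ^ (2 * k) * ((M : ℝ) * ((D + V) * (t + 1) * (Q * M) ^ t * Y)) :=
          add_le_add (mul_le_mul_of_nonneg_left h2 (by positivity))
            (mul_le_mul_of_nonneg_left h3 (by positivity))
      _ = D * (M : ℝ) ^ t * Y + (D + V) * (t + 1) * (Q * M) ^ (t + 1) * Y := by
          rw [h4, ← hQ]
          ring
      _ ≤ (D + V) * (Q * M) ^ (t + 1) * Y + (D + V) * (t + 1) * (Q * M) ^ (t + 1) * Y := by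
          apply add_le_add_left
          apply mul_le_mul_of_nonneg_right _ (by linarith)
          exact mul_le_mul (by linarith) h5 hMt0 (by linarith)
      _ = _ := by push_cast; ring

theorem t_IT (hBG : S_BG) (hMV : S_MV) : S_IT := by
  intro k q A hk hq hA ε hε
  obtain ⟨δ, hδ⟩ : ∃ δ, δ = ε / 4 := ⟨_, rfl⟩
  have hδ0 : 0 < δ := by rw [hδ]; positivity
  obtain ⟨Q, hQ⟩ : ∃ Q, Q = (6 * (k : ℝ)) ^ (2 * k) := ⟨_, rfl⟩
  have hk1 : (1 : ℝ) ≤ k := by exact_mod_cast (by omega : 1 ≤ k)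
  have hQ1 : 1 ≤ Q := by
    rw [hQ]
    exact one_le_pow₀ (by linarith)
  obtain ⟨M, hM⟩ : ∃ M : ℕ, M = ⌈Q ^ (1 / δ)⌉₊ + 2 := ⟨_, rfl⟩
  have hM2 : 2 ≤ M := by omega
  have hMQ : Q ≤ (M : ℝ) ^ δ := by
    have h1 : Q ^ (1 / δ) ≤ M := by
      refine (Nat.le_ceil _).trans ?_
      exact_mod_cast (by omega : ⌈Q ^ (1 / δ)⌉₊ ≤ M)
    calc Q = (Q ^ (1 / δ)) ^ δ := by
          rw [← Real.rpow_mul (by linarith), one_div, inv_mul_cancel₀ hδ0.ne', Real.rpow_one]
      _ ≤ _ := Real.rpow_le_rpow (by positivity) h1 hδ0.le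
  obtain ⟨C, hC, hmv⟩ := hMV k q A (M + 2) hk hq hA
  obtain ⟨D, hD⟩ : ∃ D, D = (2 * (M : ℝ)) ^ (2 * k) * (M : ℝ) ^ k * C := ⟨_, rfl⟩
  obtain ⟨V, hV⟩ : ∃ V, V = volume.real (cube k A) := ⟨_, rfl⟩
  have hV0 : 0 ≤ V := by rw [hV]; exact measureReal_nonneg
  have hM0 : (0 : ℝ) < M := by exact_mod_cast (by omega : 0 < M)
  have hD0 : 0 < D := by rw [hD]; positivity
  refine ⟨(D + V) * 2 * (1 + 1 / δ) ^ 2 * Q * M, by positivity, fun X hX => ?_⟩
  have hX1 : (1 : ℝ) ≤ X := by exact_mod_cast hX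
  have hX0 : (0 : ℝ) < X := by linarith
  obtain ⟨t, ht⟩ : ∃ t, t = Nat.log M X := ⟨_, rfl⟩
  have ht1 : M ^ t ≤ X := by rw [ht]; exact Nat.pow_log_le_self M (by omega)
  have ht2 : X < M ^ (t + 1) := by rw [ht]; exact Nat.lt_pow_succ_log_self (by omega) X
  have h1 := scales hBG k q A M (M + 2) hk (by omega) C hC hmv X hX D V Q _ hD hV hQ rfl (t + 1)
    (fun s hs => (Nat.pow_le_pow_right (by omega) (by omega)).trans ht1) X le_rfl (by
      rw [pow_succ]
      nlinarith)
  have h2 : W k q A (fun _ => Ico X (2 * X)) ≤ W k q A (fun _ => Ico X (X + M ^ (t + 1))) := by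
    apply W_mono
    intro _
    apply Ico_subset_Ico_right
    omega
  refine h2.trans (h1.trans ?_)
  -- real estimates
  have hlog : 0 ≤ Real.log X := Real.log_nonneg hX1
  have hl : 1 + Real.log X ≤ (1 + 1 / δ) * (X : ℝ) ^ δ := by
    have h3 := Real.log_le_rpow_div hX0.le hδ0
    have h4 : 1 ≤ (X : ℝ) ^ δ := Real.one_le_rpow hX1 hδ0.le
    calc 1 + Real.log X ≤ (X : ℝ) ^ δ + (X : ℝ) ^ δ / δ := add_le_add h4 h3
      _ = _ := by ring
  have hMtX : ((M : ℝ)) ^ t ≤ X := by exact_mod_cast ht1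
  have ht3 : ((t + 1 : ℕ) : ℝ) + 1 ≤ 2 * (1 + Real.log X) := by
    have h3 : (2 : ℝ) ^ t ≤ X := by
      refine le_trans ?_ hMtX
      exact pow_le_pow_left₀ (by norm_num) (by exact_mod_cast hM2) t
    have h4 := Real.log_le_log (by positivity) h3
    rw [Real.log_pow] at h4
    have h5 := Real.log_two_gt_d9
    have h6 : (0 : ℝ) ≤ t := Nat.cast_nonneg t
    push_cast
    nlinarith
  have hQt : Q ^ t ≤ (X : ℝ) ^ δ := by
    calc Q ^ t ≤ ((M : ℝ) ^ δ) ^ t := pow_le_pow_left₀ (by linarith) hMQ t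
      _ = ((M : ℝ) ^ t) ^ δ := by
          rw [← Real.rpow_natCast, ← Real.rpow_mul hM0.le, mul_comm, Real.rpow_mul hM0.le,
            Real.rpow_natCast]
      _ ≤ _ := Real.rpow_le_rpow (by positivity) hMtX hδ0.le
  have hQM : (Q * M) ^ (t + 1) ≤ Q * M * ((X : ℝ) ^ δ * X) := by
    calc (Q * M) ^ (t + 1) = Q * M * (Q ^ t * (M : ℝ) ^ t) := by rw [pow_succ, mul_pow]; ring
      _ ≤ _ := by
        apply mul_le_mul_of_nonneg_left _ (by positivity)
        exact mul_le_mul hQt hMtX (by positivity) (by positivity)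
  have hXk : (X : ℝ) ^ (k - 1) * X = (X : ℝ) ^ (k : ℝ) := by
    rw [← pow_succ, Real.rpow_natCast]
    congr 1
    omega
  have h7 : (X : ℝ) ^ δ * (X : ℝ) ^ δ * (X : ℝ) ^ δ * (X : ℝ) ^ (k : ℝ) ≤ (X : ℝ) ^ ((k : ℝ) + ε) := by
    rw [← Real.rpow_add hX0, ← Real.rpow_add hX0, ← Real.rpow_add hX0]
    apply Real.rpow_le_rpow_of_exponent_le hX1
    rw [hδ]
    linarith
  have hL0 : 0 ≤ 1 + Real.log X := by linarith
  calc (D + V) * (((t + 1 : ℕ) : ℝ) + 1) * (Q * M) ^ (t + 1) * ((X : ℝ) ^ (k - 1) * (1 + Real.log X)) ≤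
        (D + V) * (2 * ((1 + 1 / δ) * (X : ℝ) ^ δ)) * (Q * M * ((X : ℝ) ^ δ * X)) *
          ((X : ℝ) ^ (k - 1) * ((1 + 1 / δ) * (X : ℝ) ^ δ)) := by
        apply mul_le_mul
        · apply mul_le_mul
          · apply mul_le_mul_of_nonneg_left _ (by positivity)
            linarith
          · exact hQM
          · positivity
          · positivity
        · exact mul_le_mul_of_nonneg_left hl (by positivity)
        · positivity
        · positivity
    _ = (D + V) * 2 * (1 + 1 / δ) ^ 2 * Q * M *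
        ((X : ℝ) ^ δ * (X : ℝ) ^ δ * (X : ℝ) ^ δ * ((X : ℝ) ^ (k - 1) * X)) := by ring
    _ ≤ _ := by
        rw [hXk]
        exact mul_le_mul_of_nonneg_left h7 (by positivity)

end Pool.Agent.V5helper58.SP
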